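import Pool.Agent.Lib.MP_6bc78b_nt.MS.P2.H75.Crude

/-! Project MS, Part II: LOW, the small conductors. -/

set_option autoImplicit false

open Filter Topology ArithmeticFunction

namespace Pool.Agent.Lib.MP_6bc78b_nt.MS.P2.H75

open Pool.Agent.Lib.MP_6bc78b_nt.MS Pool.Agent.Lib.MP_6bc78b_nt.MS.P2

/-- The sum over `s`, `d`, `q` for a bound as in RGC. -/
theorem low_of_bound (h1 : DivStatement) (th : ℝ) (hth0 : 0 < th) (hth : th < 1 / 2) (j A : ℕ)
    (α : ℝ → ArithmeticFunction ℝ) (K : ℕ)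
    (h : ∀ B : ℕ, ∀ᶠ T : ℝ in atTop, ∀ q s d : ℕ, 2 ≤ q → (q : ℝ) ≤ Real.log T ^ A →
      ((q * s : ℕ) : ℝ) ≤ T ^ th → Squarefree s → d ∣ s →
      ∀ ψ : DirichletCharacter ℂ q, ψ.IsPrimitive →
        ‖VV j T (α T) (q * s) d ψ‖ ≤ T * ((s : ℝ) / d) * dv s ^ K / Real.log T ^ B) :
    Tendsto (fun T : ℝ => EE th j T 1 ⌊Real.log T ^ A⌋₊ (α T) / T) atTop (𝓝 0) := by
  obtain ⟨-, -, -, hdiv, -⟩ := h1
  set B : ℕ := A + 2 ^ (K + 2) + 1 with hB
  have hup : ∀ᶠ T : ℝ in atTop, EE th j T 1 ⌊Real.log T ^ A⌋₊ (α T) / T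
      ≤ (2 : ℝ) ^ (2 ^ (K + 2)) * (Real.log T)⁻¹ := by
    have hlog : ∀ᶠ T : ℝ in atTop, 1 ≤ Real.log T := Real.tendsto_log_atTop.eventually_ge_atTop 1
    filter_upwards [h B, eventually_ge_atTop (3 : ℝ), hlog] with T hT hT3 hlog1
    have hT0 : 0 < T := by linarith
    have hT1 : 1 ≤ T := by linarith
    have hL0 : 0 < Real.log T := by linarith
    have hTth : T ^ th ≤ T := by
      calc T ^ th ≤ T ^ (1 : ℝ) := Real.rpow_le_rpow_of_exponent_le hT1 (by linarith)
        _ = T := Real.rpow_one T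
    have hTth1 : 1 ≤ T ^ th := Real.one_le_rpow hT1 hth0.le
    have hfl1 : 1 ≤ ⌊T ^ th⌋₊ := Nat.one_le_iff_ne_zero.2 (by
      have := (Nat.one_le_floor_iff (T ^ th)).2 hTth1
      omega)
    have hdv0 : ∀ s : ℕ, 0 ≤ dv s := fun s => by unfold dv; positivity
    have hEE := EE_le th j T 1 ⌊Real.log T ^ A⌋₊ (α T)
      (fun s d => T * ((s : ℝ) / d) * dv s ^ K / Real.log T ^ B)
      (fun s d => by have := hdv0 s; positivity)
      (by
        intro s d q hs hsT hsq hd hq1 hq2 hqs ψ hψ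
        have hqL : (q : ℝ) ≤ Real.log T ^ A := (Nat.le_floor_iff (by positivity)).1 hq2
        exact hT q s d (by omega) hqL hqs hsq hd ψ hψ)
    rw [div_le_iff₀ hT0]
    refine hEE.trans ?_
    -- each term
    have hfloor : (⌊Real.log T ^ A⌋₊ : ℝ) ≤ Real.log T ^ A := Nat.floor_le (by positivity)
    have hterm : ∀ s ∈ (Finset.Icc 1 ⌊T ^ th⌋₊).filter Squarefree,
        1 / ((s : ℝ) * (s.totient : ℝ)) * ∑ d ∈ s.divisors, (d : ℝ) *
          ((⌊Real.log T ^ A⌋₊ : ℝ) * (T * ((s : ℝ) / d) * dv s ^ K / Real.log T ^ B))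
        ≤ (T * Real.log T ^ A / Real.log T ^ B) * (dv s ^ (K + 1) / s.totient) := by
      intro s hs
      obtain ⟨hs3, hs4⟩ := Finset.mem_Icc.1 (Finset.mem_filter.1 hs).1
      have hs0 : (0 : ℝ) < s := by exact_mod_cast hs3
      have hφ : (0 : ℝ) < s.totient := by exact_mod_cast Nat.totient_pos.2 hs3
      have hd1 : ∀ d ∈ s.divisors, (d : ℝ) *
          ((⌊Real.log T ^ A⌋₊ : ℝ) * (T * ((s : ℝ) / d) * dv s ^ K / Real.log T ^ B))
          ≤ Real.log T ^ A * (T * s * dv s ^ K / Real.log T ^ B) := by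
        intro d hd
        have hd0 : (0 : ℝ) < d := by exact_mod_cast Nat.pos_of_mem_divisors hd
        have e : (d : ℝ) *
          ((⌊Real.log T ^ A⌋₊ : ℝ) * (T * ((s : ℝ) / d) * dv s ^ K / Real.log T ^ B))
          = (⌊Real.log T ^ A⌋₊ : ℝ) * (T * s * dv s ^ K / Real.log T ^ B) := by
          field_simp
        rw [e]
        refine mul_le_mul_of_nonneg_right hfloor ?_
        have := hdv0 s
        positivity
      have h2 := Finset.sum_le_card_nsmul _ _ _ hd1
      rw [nsmul_eq_mul] at h2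
      calc 1 / ((s : ℝ) * (s.totient : ℝ)) * ∑ d ∈ s.divisors, (d : ℝ) *
          ((⌊Real.log T ^ A⌋₊ : ℝ) * (T * ((s : ℝ) / d) * dv s ^ K / Real.log T ^ B))
          ≤ 1 / ((s : ℝ) * (s.totient : ℝ)) * ((s.divisors.card : ℝ) *
            (Real.log T ^ A * (T * s * dv s ^ K / Real.log T ^ B))) :=
            mul_le_mul_of_nonneg_left h2 (by positivity)
        _ = (T * Real.log T ^ A / Real.log T ^ B) * (dv s ^ (K + 1) / s.totient) := by
            change _ = _ * (((s.divisors.card : ℝ)) ^ (K + 1) / _)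
            unfold dv
            field_simp
            ring
    refine (Finset.sum_le_sum hterm).trans ?_
    rw [← Finset.mul_sum]
    have hsum : ∑ s ∈ (Finset.Icc 1 ⌊T ^ th⌋₊).filter Squarefree, dv s ^ (K + 1) / (s.totient : ℝ)
        ≤ (2 * Real.log T) ^ (2 ^ (K + 2)) := by
      have h3 : ∑ s ∈ (Finset.Icc 1 ⌊T ^ th⌋₊).filter Squarefree, dv s ^ (K + 1) / (s.totient : ℝ)
          ≤ ∑ s ∈ Finset.Icc 1 ⌊T ^ th⌋₊, dv s ^ (K + 1) / (s.totient : ℝ) := by
        refine Finset.sum_le_sum_of_subset_of_nonneg (Finset.filter_subset _ _) ?_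
        intro s _ _
        have := hdv0 s
        positivity
      refine h3.trans ((hdiv (K + 1) ⌊T ^ th⌋₊ hfl1).trans ?_)
      have h4 : Real.log (⌊T ^ th⌋₊ : ℝ) ≤ Real.log T := by
        refine Real.log_le_log (by exact_mod_cast hfl1) ?_
        exact (Nat.floor_le (by positivity)).trans hTth
      have h5 : 0 ≤ Real.log (⌊T ^ th⌋₊ : ℝ) := Real.log_nonneg (by exact_mod_cast hfl1)
      exact pow_le_pow_left₀ (by linarith) (by linarith) _
    refine (mul_le_mul_of_nonneg_left hsum (by positivity)).trans (le_of_eq ?_)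
    rw [hB, mul_pow, pow_add, pow_add, pow_one]
    field_simp
  refine tendsto_of_tendsto_of_tendsto_of_le_of_le' tendsto_const_nhds
    (h := fun T : ℝ => (2 : ℝ) ^ (2 ^ (K + 2)) * (Real.log T)⁻¹) ?_ ?_ hup
  · have h6 : Tendsto (fun T : ℝ => (Real.log T)⁻¹) atTop (𝓝 0) :=
      tendsto_inv_atTop_zero.comp Real.tendsto_log_atTop
    simpa using h6.const_mul ((2 : ℝ) ^ (2 ^ (K + 2)))
  · filter_upwards [eventually_ge_atTop (3 : ℝ)] with T hT3
    refine div_nonneg ?_ (by linarith)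
    unfold EE QQ
    refine Finset.sum_nonneg (fun s _ => mul_nonneg (by positivity) ?_)
    refine Finset.sum_nonneg (fun d _ => mul_nonneg (by positivity) ?_)
    refine Finset.sum_nonneg (fun q _ => mul_nonneg (by positivity) ?_)
    exact Pool.Agent.Lib.MP_6bc78b_nt.LS.primSum_nonneg q _ (fun _ => norm_nonneg _)

theorem low (h1 : DivStatement) (h2 : DbcStatement) (h3 : RgbStatement) (h4 : RgmStatement)
    (h5 : RgcStatement) : LowStatement := by
  intro th lam c1 c2 hth0 hth hlam0 hlam α hα j A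
  obtain ⟨f, g1, g2, hf, hg1, hg2, hα⟩ := hα
  obtain ⟨⟨r1, t1⟩, ⟨r2, t2⟩, ⟨r3, t3⟩⟩ := h3
  -- the constant part
  have hh1 : Reg g1 ∧ Tb g1 := by
    rcases hg1 with rfl | rfl
    · exact ⟨r1, t1⟩
    · exact ⟨r2, t2⟩
  have hfg : Reg (f * g1) ∧ Tb (f * g1) := by
    rcases hf with rfl | rfl
    · rw [one_mul]; exact hh1
    · exact h4 La g1 t3 hh1.2 r3 hh1.1
  have hρ : Reg (f * g1 * g2) ∧ Tb (f * g1 * g2) := by
    rcases hg2 with rfl | rfl | rfl
    · rw [mul_one]; exact hfg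
    · exact h4 _ _ hfg.2 t1 hfg.1 r1
    · exact h4 _ _ hfg.2 t2 hfg.1 r2
  obtain ⟨-, -, -, -, d1, -, -, -, -, dbet, dbb⟩ := h2
  rcases hα with h | h | h
  · obtain ⟨K, hK⟩ := h5 th th hth0 hth hth0 (by linarith) j (f * g1 * g2) hρ.2 hρ.1
      (fun _ => 1) d1 (by
        intro T hT n hn
        have : n = 1 := by
          by_contra hne
          exact hn (ArithmeticFunction.one_apply_ne hne)
        subst this
        simpa using Real.one_le_rpow (by linarith : (1 : ℝ) ≤ T) hth0.le)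
    refine low_of_bound h1 th hth0 hth j A α K (fun B => ?_)
    filter_upwards [hK A B] with T hT
    intro q s d hq hqA hqs hs hd ψ hψ
    have := hT q s d hq hqA hqs hs hd ψ hψ
    rw [mul_one] at this
    rw [h T]; exact this
  · obtain ⟨K, hK⟩ := h5 th th hth0 hth hth0 (by linarith) j (f * g1 * g2) hρ.2 hρ.1
      (bet th c1 c2) (dbet th c1 c2 hth0) (by
        intro T hT n hn
        by_contra hne
        apply hn
        change betf th c1 c2 T n = 0
        unfold betf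
        rw [if_neg hne])
    refine low_of_bound h1 th hth0 hth j A α K (fun B => ?_)
    filter_upwards [hK A B] with T hT
    intro q s d hq hqA hqs hs hd ψ hψ
    rw [h T]; exact hT q s d hq hqA hqs hs hd ψ hψ
  · obtain ⟨K, hK⟩ := h5 th lam hth0 hth hlam0 hlam j (f * g1 * g2) hρ.2 hρ.1
      (bb lam) (dbb lam hlam0) (by
        intro T hT n hn
        by_contra hne
        apply hn
        change bbf lam T n = 0
        unfold bbf
        rw [if_neg hne])
    refine low_of_bound h1 th hth0 hth j A α K (fun B => ?_)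
    filter_upwards [hK A B] with T hT
    intro q s d hq hqA hqs hs hd ψ hψ
    rw [h T]; exact hT q s d hq hqA hqs hs hd ψ hψ

end Pool.Agent.Lib.MP_6bc78b_nt.MS.P2.H75
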