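import Pool.Agent.Lib.MP_6bc78b_nt.MS.P2.Iface

/-! Project MS, Part II: POL, crude polynomial bounds of the arithmetic functions. -/

set_option autoImplicit false

open Filter Topology ArithmeticFunction

namespace Pool.Agent.Lib.MP_6bc78b_nt.MS.P2.H75

open Pool.Agent.Lib.MP_6bc78b_nt.MS Pool.Agent.Lib.MP_6bc78b_nt.MS.P2

/-- `|a n| ≤ A n^k`. -/
def PB (A : ℝ) (k : ℕ) (a : ArithmeticFunction ℝ) : Prop := ∀ n : ℕ, |a n| ≤ A * (n : ℝ) ^ k

theorem PB.mono {A : ℝ} {k l : ℕ} {a : ArithmeticFunction ℝ} (h : PB A k a) (hA : 0 ≤ A)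
    (hkl : k ≤ l) : PB A l a := by
  intro n
  rcases Nat.eq_zero_or_pos n with rfl | hn
  · simp only [ArithmeticFunction.map_zero, abs_zero]
    positivity
  · refine (h n).trans (mul_le_mul_of_nonneg_left ?_ hA)
    exact pow_le_pow_right₀ (by exact_mod_cast hn) hkl

theorem PB.mul {A B : ℝ} {k : ℕ} {a b : ArithmeticFunction ℝ} (ha : PB A k a) (hb : PB B k b)
    (hA : 0 ≤ A) : PB (A * B) (k + 1) (a * b) := by
  intro n
  rw [ArithmeticFunction.mul_apply]
  refine (Finset.abs_sum_le_sum_abs _ _).trans ?_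
  have h1 : ∀ x ∈ n.divisorsAntidiagonal, |a x.1 * b x.2| ≤ A * B * (n : ℝ) ^ k := by
    intro x hx
    have hxn := (Nat.mem_divisorsAntidiagonal.1 hx).1
    rw [abs_mul, ← hxn]
    push_cast
    calc |a x.1| * |b x.2| ≤ (A * (x.1 : ℝ) ^ k) * (B * (x.2 : ℝ) ^ k) :=
          mul_le_mul (ha _) (hb _) (abs_nonneg _) (by positivity)
      _ = A * B * ((x.1 : ℝ) * x.2) ^ k := by ring
  refine (Finset.sum_le_sum h1).trans ?_
  have hcard : n.divisorsAntidiagonal.card = n.divisors.card := by
    rw [← Nat.map_div_right_divisors, Finset.card_map]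
  rw [Finset.sum_const, nsmul_eq_mul, hcard]
  rcases Nat.eq_zero_or_pos n with rfl | hn
  · simp
  · have hc : (n.divisors.card : ℝ) ≤ n := by exact_mod_cast Nat.card_divisors_le_self n
    have hB : 0 ≤ A * B * (n : ℝ) ^ k := by
      have := h1 (1, n) (by simp [hn.ne'])
      exact (abs_nonneg _).trans this
    calc (n.divisors.card : ℝ) * (A * B * (n : ℝ) ^ k) ≤ n * (A * B * (n : ℝ) ^ k) :=
          mul_le_mul_of_nonneg_right hc hB
      _ = A * B * (n : ℝ) ^ (k + 1) := by ring

theorem log_le_self {n : ℕ} : Real.log n ≤ n := by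
  rcases Nat.eq_zero_or_pos n with rfl | hn
  · simp
  · have h0 : (0 : ℝ) < n := by exact_mod_cast hn
    have := Real.log_le_sub_one_of_pos h0
    linarith

theorem pb_one' : PB 1 1 (1 : ArithmeticFunction ℝ) := by
  intro n
  rcases Nat.eq_zero_or_pos n with rfl | hn
  · simp
  · have hn1 : (1 : ℝ) ≤ n := by exact_mod_cast hn
    by_cases h : n = 1
    · subst h; simp
    · rw [ArithmeticFunction.one_apply_ne h]; simp

theorem pb_one : PB 1 1 one := by
  intro n
  rcases Nat.eq_zero_or_pos n with rfl | hn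
  · simp
  · have hn1 : (1 : ℝ) ≤ n := by exact_mod_cast hn
    simp only [one, ArithmeticFunction.natCoe_apply, ArithmeticFunction.zeta_apply, hn.ne', if_false]
    simpa using hn1

theorem pb_lg : PB 1 1 lg := by
  intro n
  rcases Nat.eq_zero_or_pos n with rfl | hn
  · simp
  · have hn1 : (1 : ℝ) ≤ n := by exact_mod_cast hn
    simp only [lg, ArithmeticFunction.log_apply]
    rw [abs_of_nonneg (Real.log_nonneg hn1)]
    simpa using log_le_self (n := n)

theorem pb_La : PB 1 1 La := by
  intro n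
  simp only [La]
  rw [abs_of_nonneg ArithmeticFunction.vonMangoldt_nonneg]
  have h1 := ArithmeticFunction.vonMangoldt_le_log (n := n)
  have h2 := log_le_self (n := n)
  simpa using h1.trans h2

theorem pb_bet (th c1 c2 T : ℝ) (hth : 0 < th) (hT : 3 ≤ T) :
    PB (|c1| + |c2|) 1 (bet th c1 c2 T) := by
  intro n
  rcases Nat.eq_zero_or_pos n with rfl | hn
  · simp
  have hn1 : (1 : ℝ) ≤ n := by exact_mod_cast hn
  have hlogT : 0 < Real.log T := Real.log_pos (by linarith)
  change |betf th c1 c2 T n| ≤ _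
  unfold betf
  split_ifs with h
  · set x : ℝ := 1 - Real.log n / (th * Real.log T) with hx
    have hlogn : 0 ≤ Real.log n := Real.log_nonneg hn1
    have hden : 0 < th * Real.log T := by positivity
    have hx1 : x ≤ 1 := by
      rw [hx]; have : 0 ≤ Real.log n / (th * Real.log T) := by positivity
      linarith
    have hx0 : 0 ≤ x := by
      rw [hx, sub_nonneg, div_le_one hden]
      have := Real.log_le_log (by linarith) h
      rwa [Real.log_rpow (by linarith)] at this
    have hP : |PP c1 c2 x| ≤ |c1| + |c2| := by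
      unfold PP
      refine (abs_add_le _ _).trans ?_
      rw [abs_mul, abs_mul, abs_of_nonneg hx0, abs_of_nonneg (by positivity : 0 ≤ x ^ 2)]
      have hx2 : x ^ 2 ≤ 1 := by nlinarith
      have e1 : |c1| * x ≤ |c1| * 1 := mul_le_mul_of_nonneg_left hx1 (abs_nonneg _)
      have e2 : |c2| * x ^ 2 ≤ |c2| * 1 := mul_le_mul_of_nonneg_left hx2 (abs_nonneg _)
      linarith
    have hmu : |((ArithmeticFunction.moebius n : ℤ) : ℝ)| ≤ 1 := by
      exact_mod_cast ArithmeticFunction.abs_moebius_le_one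
    rw [abs_mul]
    have hc : 0 ≤ |c1| + |c2| := by positivity
    calc |((ArithmeticFunction.moebius n : ℤ) : ℝ)| * |PP c1 c2 x| ≤ 1 * (|c1| + |c2|) :=
          mul_le_mul hmu hP (abs_nonneg _) (by norm_num)
      _ ≤ (|c1| + |c2|) * (n : ℝ) ^ 1 := by nlinarith
  · simp only [abs_zero]; positivity

theorem pb_bb (lam T : ℝ) (hlam : 0 < lam) (hT : 3 ≤ T) : PB 1 1 (bb lam T) := by
  intro n
  rcases Nat.eq_zero_or_pos n with rfl | hn
  · simp
  have hn1 : (1 : ℝ) ≤ n := by exact_mod_cast hn
  have hlogT : 0 < Real.log T := Real.log_pos (by linarith)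
  change |bbf lam T n| ≤ _
  unfold bbf
  split_ifs with h
  · have hden : 0 < lam * Real.log T := by positivity
    have hlogn : 0 ≤ Real.log n := Real.log_nonneg hn1
    have hle : Real.log n ≤ lam * Real.log T := by
      have := Real.log_le_log (by linarith) h
      rwa [Real.log_rpow (by linarith)] at this
    have hx0 : 0 ≤ 1 - Real.log n / (lam * Real.log T) := by
      rw [sub_nonneg, div_le_one hden]; exact hle
    have hx1 : 1 - Real.log n / (lam * Real.log T) ≤ 1 := by
      have : 0 ≤ Real.log n / (lam * Real.log T) := by positivity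
      linarith
    have hL0 : 0 ≤ ArithmeticFunction.vonMangoldt n := ArithmeticFunction.vonMangoldt_nonneg
    have hL1 : ArithmeticFunction.vonMangoldt n ≤ lam * Real.log T :=
      (ArithmeticFunction.vonMangoldt_le_log).trans hle
    rw [abs_of_nonneg (by positivity), div_le_iff₀ hden]
    calc ArithmeticFunction.vonMangoldt n * (1 - Real.log n / (lam * Real.log T))
        ≤ (lam * Real.log T) * 1 := mul_le_mul hL1 hx1 hx0 hden.le
      _ ≤ 1 * (n : ℝ) ^ 1 * (lam * Real.log T) := by nlinarith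
  · simp

/-- `c = bet` or `c = bb` or nothing. -/
theorem pol : PolStatement := by
  intro th lam c1 c2 hth hlam α hα
  obtain ⟨f, h1, h2, hf, hh1, hh2, hα⟩ := hα
  have pf : PB 1 1 f := by
    rcases hf with rfl | rfl
    · exact pb_one'
    · exact pb_La
  have p1 : PB 1 1 h1 := by
    rcases hh1 with rfl | rfl
    · exact pb_one
    · exact pb_lg
  have p2 : PB 1 1 h2 := by
    rcases hh2 with rfl | rfl | rfl
    · exact pb_one'
    · exact pb_one
    · exact pb_lg
  have q1 : PB (1 * 1) 2 (f * h1) := pf.mul p1 (by norm_num)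
  have q2 : PB (1 * 1 * 1) 3 (f * h1 * h2) := q1.mul (p2.mono (by norm_num) (by norm_num)) (by norm_num)
  have hcc : 0 ≤ |c1| + |c2| := by positivity
  refine ⟨1 + (|c1| + |c2|), ?_⟩
  intro T hT n
  have hn10 : (0 : ℝ) ≤ (n : ℝ) ^ 10 := by positivity
  rcases hα with h | h | h
  · rw [h T]
    refine ((q2.mono (by norm_num) (by norm_num : 3 ≤ 10)) n).trans ?_
    nlinarith
  · rw [h T]
    have q3 : PB (1 * 1 * 1 * (|c1| + |c2|)) 4 (f * h1 * h2 * bet th c1 c2 T) :=
      q2.mul ((pb_bet th c1 c2 T hth hT).mono hcc (by norm_num)) (by norm_num)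
    refine ((q3.mono (by positivity) (by norm_num : 4 ≤ 10)) n).trans ?_
    nlinarith
  · rw [h T]
    have q3 : PB (1 * 1 * 1 * 1) 4 (f * h1 * h2 * bb lam T) :=
      q2.mul ((pb_bb lam T hlam hT).mono (by norm_num) (by norm_num)) (by norm_num)
    refine ((q3.mono (by norm_num) (by norm_num : 4 ≤ 10)) n).trans ?_
    nlinarith

end Pool.Agent.Lib.MP_6bc78b_nt.MS.P2.H75
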