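import Pool.Agent.Lib.MP_6bc78b_nt.MS.P2.Iface

/-! Project MS, Part II: crude bounds for the sums over the conductors. -/

set_option autoImplicit false

open Filter Topology ArithmeticFunction

namespace Pool.Agent.Lib.MP_6bc78b_nt.MS.P2.H75

open Pool.Agent.Lib.MP_6bc78b_nt.MS Pool.Agent.Lib.MP_6bc78b_nt.MS.P2
open Pool.Agent.Lib.MP_6bc78b_nt.LS (primSum primSum_mono primSum_nonneg)

theorem primSum_const_le (q : ℕ) (hq : 1 ≤ q) (M : ℝ) (hM : 0 ≤ M) :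
    primSum q (fun _ => M) ≤ q.totient * M := by
  classical
  have : NeZero q := ⟨by omega⟩
  unfold primSum
  have h1 : ∑ χ : DirichletCharacter ℂ q, (if χ.IsPrimitive then M else 0)
      ≤ ∑ _χ : DirichletCharacter ℂ q, M := by
    refine Finset.sum_le_sum (fun χ _ => ?_)
    split_ifs
    · exact le_rfl
    · exact hM
  have h2 : (Fintype.card (DirichletCharacter ℂ q) : ℝ) = q.totient := by
    rw [← Nat.card_eq_fintype_card]
    exact_mod_cast DirichletCharacter.card_eq_totient_of_hasEnoughRootsOfUnity ℂ q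
  calc _ = ∑ χ : DirichletCharacter ℂ q, (if χ.IsPrimitive then M else 0) := by
        refine Finset.sum_congr rfl (fun χ _ => ?_)
        congr
    _ ≤ ∑ _χ : DirichletCharacter ℂ q, M := h1
    _ = q.totient * M := by rw [Finset.sum_const, nsmul_eq_mul, Finset.card_univ, h2]

theorem term_le (q : ℕ) (hq : 1 ≤ q) (F : DirichletCharacter ℂ q → ℝ) (M : ℝ) (hM : 0 ≤ M)
    (h : ∀ ψ : DirichletCharacter ℂ q, ψ.IsPrimitive → F ψ ≤ M) :
    1 / (Real.sqrt q * (q.totient : ℝ)) * primSum q F ≤ M := by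
  have h1 : primSum q F ≤ q.totient * M :=
    (primSum_mono q F (fun _ => M) h).trans (primSum_const_le q hq M hM)
  have hφ : (0 : ℝ) < q.totient := by exact_mod_cast Nat.totient_pos.2 hq
  have hs : (1 : ℝ) ≤ Real.sqrt q := by rw [Real.one_le_sqrt]; exact_mod_cast hq
  rw [one_div, inv_mul_le_iff₀ (by positivity)]
  refine h1.trans ?_
  have : q.totient * M ≤ Real.sqrt q * (q.totient * M) := by
    have h0 : 0 ≤ q.totient * M := by positivity
    nlinarith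
  linarith

theorem QQ_le (j : ℕ) (T : ℝ) (α : ArithmeticFunction ℝ) (s d : ℕ) (S : Finset ℕ) (M : ℝ)
    (hS : ∀ q ∈ S, 1 ≤ q) (hM : 0 ≤ M)
    (h : ∀ q ∈ S, ∀ ψ : DirichletCharacter ℂ q, ψ.IsPrimitive → ‖VV j T α (q * s) d ψ‖ ≤ M) :
    QQ j T α s d S ≤ S.card * M := by
  unfold QQ
  have := Finset.sum_le_card_nsmul S (fun q : ℕ => 1 / (Real.sqrt q * (q.totient : ℝ)) *
    primSum q (fun ψ => ‖VV j T α (q * s) d ψ‖)) M
    (fun q hq => term_le q (hS q hq) _ M hM (h q hq))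
  simpa [nsmul_eq_mul] using this

theorem EE_le (th : ℝ) (j : ℕ) (T : ℝ) (a b : ℕ) (α : ArithmeticFunction ℝ) (M : ℕ → ℕ → ℝ)
    (hM : ∀ s d, 0 ≤ M s d)
    (h : ∀ s d q : ℕ, 1 ≤ s → (s : ℝ) ≤ T ^ th → Squarefree s → d ∣ s → a < q → q ≤ b →
      ((q * s : ℕ) : ℝ) ≤ T ^ th → ∀ ψ : DirichletCharacter ℂ q, ψ.IsPrimitive →
        ‖VV j T α (q * s) d ψ‖ ≤ M s d) :
    EE th j T a b α ≤ ∑ s ∈ (Finset.Icc 1 ⌊T ^ th⌋₊).filter Squarefree,
      1 / ((s : ℝ) * (s.totient : ℝ)) * ∑ d ∈ s.divisors, (d : ℝ) * (b * M s d) := by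
  unfold EE
  refine Finset.sum_le_sum (fun s hs => ?_)
  obtain ⟨hs1, hs2⟩ := Finset.mem_filter.1 hs
  obtain ⟨hs3, hs4⟩ := Finset.mem_Icc.1 hs1
  have hsT : (s : ℝ) ≤ T ^ th := by
    have h0 : 0 < ⌊T ^ th⌋₊ := by omega
    exact (Nat.le_floor_iff' (by omega)).1 hs4
  refine mul_le_mul_of_nonneg_left ?_ (by positivity)
  refine Finset.sum_le_sum (fun d hd => ?_)
  refine mul_le_mul_of_nonneg_left ?_ (by positivity)
  have hdv := Nat.dvd_of_mem_divisors hd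
  refine (QQ_le j T α s d _ (M s d) ?_ (hM s d) ?_).trans ?_
  · intro q hq
    have := (Finset.mem_Ioc.1 (Finset.mem_filter.1 hq).1).1
    omega
  · intro q hq ψ hψ
    obtain ⟨q1, q2⟩ := Finset.mem_filter.1 hq
    obtain ⟨q3, q4⟩ := Finset.mem_Ioc.1 q1
    exact h s d q hs3 hsT hs2 hdv q3 q4 q2 ψ hψ
  · refine mul_le_mul_of_nonneg_right ?_ (hM s d)
    have h1 := Finset.card_filter_le (Finset.Ioc a b) (fun q => ((q * s : ℕ) : ℝ) ≤ T ^ th)
    rw [Nat.card_Ioc] at h1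
    have h2 : ((Finset.Ioc a b).filter (fun q => ((q * s : ℕ) : ℝ) ≤ T ^ th)).card ≤ b := by omega
    exact_mod_cast h2

/-- With a constant bound. -/
theorem EE_le_const (th : ℝ) (j : ℕ) (T : ℝ) (a b : ℕ) (α : ArithmeticFunction ℝ) (M : ℝ)
    (hM : 0 ≤ M) (hT : 1 ≤ T) (hth : th ≤ 1) (hb : (b : ℝ) ≤ T)
    (h : ∀ s d q : ℕ, 1 ≤ s → (s : ℝ) ≤ T ^ th → Squarefree s → d ∣ s → a < q → q ≤ b →
      ((q * s : ℕ) : ℝ) ≤ T ^ th → ∀ ψ : DirichletCharacter ℂ q, ψ.IsPrimitive →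
        ‖VV j T α (q * s) d ψ‖ ≤ M) :
    EE th j T a b α ≤ T ^ 3 * M := by
  refine (EE_le th j T a b α (fun _ _ => M) (fun _ _ => hM) h).trans ?_
  have hTth : T ^ th ≤ T := by
    calc T ^ th ≤ T ^ (1 : ℝ) := Real.rpow_le_rpow_of_exponent_le hT hth
      _ = T := Real.rpow_one T
  have hterm : ∀ s ∈ (Finset.Icc 1 ⌊T ^ th⌋₊).filter Squarefree,
      1 / ((s : ℝ) * (s.totient : ℝ)) * ∑ d ∈ s.divisors, (d : ℝ) * (b * M) ≤ T * (T * M) := by
    intro s hs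
    obtain ⟨hs3, hs4⟩ := Finset.mem_Icc.1 (Finset.mem_filter.1 hs).1
    have hsT : (s : ℝ) ≤ T := ((Nat.le_floor_iff' (by omega)).1 hs4).trans hTth
    have hs0 : (0 : ℝ) < s := by exact_mod_cast hs3
    have hφ : (1 : ℝ) ≤ s.totient := by exact_mod_cast Nat.totient_pos.2 hs3
    have h1 : ∑ d ∈ s.divisors, (d : ℝ) * (b * M) ≤ (s : ℝ) * (s * (b * M)) := by
      have h2 : ∀ d ∈ s.divisors, (d : ℝ) * (b * M) ≤ s * (b * M) := by
        intro d hd
        have : (d : ℝ) ≤ s := by exact_mod_cast Nat.divisor_le hd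
        exact mul_le_mul_of_nonneg_right this (by positivity)
      refine (Finset.sum_le_card_nsmul _ _ _ h2).trans ?_
      rw [nsmul_eq_mul]
      refine mul_le_mul_of_nonneg_right ?_ (by positivity)
      exact_mod_cast Nat.card_divisors_le_self s
    rw [one_div, inv_mul_le_iff₀ (by positivity)]
    refine h1.trans ?_
    have h3 : (s : ℝ) * (b * M) ≤ T * (T * M) := by
      have : (b : ℝ) * M ≤ T * M := mul_le_mul_of_nonneg_right hb hM
      exact mul_le_mul hsT this (by positivity) (by linarith)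
    have h4 : 0 ≤ T * (T * M) := by positivity
    calc (s : ℝ) * (s * (b * M)) ≤ s * (T * (T * M)) := mul_le_mul_of_nonneg_left h3 hs0.le
      _ ≤ s * s.totient * (T * (T * M)) := by
        have : (s : ℝ) ≤ s * s.totient := by nlinarith
        exact mul_le_mul_of_nonneg_right this h4
  refine (Finset.sum_le_card_nsmul _ _ _ hterm).trans ?_
  rw [nsmul_eq_mul]
  have hcard : (((Finset.Icc 1 ⌊T ^ th⌋₊).filter Squarefree).card : ℝ) ≤ T := by
    have h1 := Finset.card_filter_le (Finset.Icc 1 ⌊T ^ th⌋₊) Squarefree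
    rw [Nat.card_Icc] at h1
    have h2 : (((Finset.Icc 1 ⌊T ^ th⌋₊).filter Squarefree).card : ℝ) ≤ (⌊T ^ th⌋₊ : ℝ) := by
      exact_mod_cast (by omega : ((Finset.Icc 1 ⌊T ^ th⌋₊).filter Squarefree).card ≤ ⌊T ^ th⌋₊)
    exact h2.trans ((Nat.floor_le (by positivity)).trans hTth)
  calc (((Finset.Icc 1 ⌊T ^ th⌋₊).filter Squarefree).card : ℝ) * (T * (T * M))
      ≤ T * (T * (T * M)) := mul_le_mul_of_nonneg_right hcard (by positivity)
    _ = T ^ 3 * M := by ring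

/-- Trivial bound of the character sum. -/
theorem VV_le (j : ℕ) (T : ℝ) (α : ArithmeticFunction ℝ) (m d : ℕ) {q : ℕ}
    (ψ : DirichletCharacter ℂ q) (M : ℝ) (hM : 0 ≤ M)
    (h : ∀ n : ℕ, 1 ≤ n → (n : ℝ) ≤ T ^ 2 → |α n * wt j T ((n : ℝ) / m)| ≤ M) :
    ‖VV j T α m d ψ‖ ≤ T ^ 2 * M := by
  unfold VV
  refine (norm_sum_le _ _).trans ?_
  have hterm : ∀ n ∈ (Finset.Icc 1 ⌊T ^ 2⌋₊).filter (fun n => d ∣ n),
      ‖((α n * wt j T ((n : ℝ) / m) : ℝ) : ℂ) * ψ (n : ZMod q)‖ ≤ M := by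
    intro n hn
    obtain ⟨hn1, hn2⟩ := Finset.mem_Icc.1 (Finset.mem_filter.1 hn).1
    have hnT : (n : ℝ) ≤ T ^ 2 := (Nat.le_floor_iff' (by omega)).1 hn2
    rw [norm_mul, Complex.norm_real, Real.norm_eq_abs]
    have h1 := h n hn1 hnT
    have h2 := DirichletCharacter.norm_le_one ψ (n : ZMod q)
    calc |α n * wt j T ((n : ℝ) / m)| * ‖ψ (n : ZMod q)‖ ≤ M * 1 :=
          mul_le_mul h1 h2 (norm_nonneg _) hM
      _ = M := mul_one M
  refine (Finset.sum_le_card_nsmul _ _ _ hterm).trans ?_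
  rw [nsmul_eq_mul]
  refine mul_le_mul_of_nonneg_right ?_ hM
  have h1 := Finset.card_filter_le (Finset.Icc 1 ⌊T ^ 2⌋₊) (fun n => d ∣ n)
  rw [Nat.card_Icc] at h1
  have h2 : (((Finset.Icc 1 ⌊T ^ 2⌋₊).filter (fun n => d ∣ n)).card : ℝ) ≤ (⌊T ^ 2⌋₊ : ℝ) := by
    exact_mod_cast (by omega : ((Finset.Icc 1 ⌊T ^ 2⌋₊).filter (fun n => d ∣ n)).card ≤ ⌊T ^ 2⌋₊)
  exact h2.trans (Nat.floor_le (by positivity))

end Pool.Agent.Lib.MP_6bc78b_nt.MS.P2.H75
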