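import Pool.Agent.Lib.MP_6bc78b_nt.MS.P2.H75.Crude

/-! Project MS, Part II: EDG, supports outside the essential range. -/

set_option autoImplicit false

open Filter Topology ArithmeticFunction

namespace Pool.Agent.Lib.MP_6bc78b_nt.MS.P2.H75

open Pool.Agent.Lib.MP_6bc78b_nt.MS Pool.Agent.Lib.MP_6bc78b_nt.MS.P2

/-- If the weight is tiny on the support then `Est` holds. -/
theorem est_of_tiny (th : ℝ) (hth0 : 0 < th) (hth : th < 1 / 2) (j : ℕ)
    (a : ℝ → ArithmeticFunction ℝ) (ha : DB a)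
    (h : ∀ N : ℕ, ∀ᶠ T : ℝ in atTop, ∀ n m : ℕ, 1 ≤ n → 1 ≤ m → (m : ℝ) ≤ T ^ th → a T n ≠ 0 →
      |wt j T ((n : ℝ) / m)| ≤ 1 / T ^ N) : Est th j a := by
  obtain ⟨K, hK⟩ := ha
  refine ⟨0, fun A _ => ?_⟩
  have h1 := h (3 * K + 6)
  have hup : ∀ᶠ T : ℝ in atTop,
      EE th j T ⌊Real.log T ^ A⌋₊ ⌊T ^ th⌋₊ (a T) / T ≤ (K : ℝ) * T⁻¹ := by
    filter_upwards [h1, eventually_ge_atTop (3 : ℝ)] with T hT hT3
    have hT0 : 0 < T := by linarith
    have hT1 : 1 ≤ T := by linarith
    have hlog0 : 0 ≤ Real.log T := Real.log_nonneg hT1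
    have hlogT : Real.log T ≤ T := (Real.log_le_sub_one_of_pos hT0).trans (by linarith)
    have hTth : T ^ th ≤ T := by
      calc T ^ th ≤ T ^ (1 : ℝ) := Real.rpow_le_rpow_of_exponent_le hT1 (by linarith)
        _ = T := Real.rpow_one T
    have hEE := EE_le_const th j T ⌊Real.log T ^ A⌋₊ ⌊T ^ th⌋₊ (a T) (T ^ 2 * (K * (T ^ 6)⁻¹))
      (by positivity) hT1 (by linarith) ((Nat.floor_le (by positivity)).trans hTth) ?_
    · rw [div_le_iff₀ hT0]
      refine hEE.trans ?_
      calc T ^ 3 * (T ^ 2 * (K * (T ^ 6)⁻¹)) = K * T⁻¹ := by field_simp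
        _ ≤ K * T⁻¹ * T := le_mul_of_one_le_right (by positivity) hT1
    · intro s d q hs hsT _ _ haq _ hqs ψ _
      refine VV_le j T (a T) (q * s) d ψ _ (by positivity) ?_
      intro n hn1 hnT
      by_cases h0 : a T n = 0
      · rw [h0, zero_mul, abs_zero]; positivity
      · have hm1 : 1 ≤ q * s := Nat.one_le_iff_ne_zero.2 (Nat.mul_ne_zero (by omega) (by omega))
        have hw := hT n (q * s) hn1 hm1 hqs h0
        have hav := hK T hT3 n hnT
        have hdv : dv n ≤ T ^ 2 := by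
          unfold dv
          have : (n.divisors.card : ℝ) ≤ n := by exact_mod_cast Nat.card_divisors_le_self n
          exact this.trans hnT
        have hdv0 : 0 ≤ dv n := by unfold dv; positivity
        have hav2 : |a T n| ≤ K * T ^ K * (T ^ 2) ^ K := by
          refine hav.trans ?_
          gcongr
        rw [abs_mul]
        calc |a T n| * |wt j T ((n : ℝ) / ((q * s : ℕ) : ℝ))|
            ≤ (K * T ^ K * (T ^ 2) ^ K) * (1 / T ^ (3 * K + 6)) :=
              mul_le_mul hav2 hw (abs_nonneg _) (by positivity)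
          _ = K * (T ^ 6)⁻¹ := by
            rw [pow_add, pow_mul, ← pow_mul]
            field_simp
            ring
  refine tendsto_of_tendsto_of_tendsto_of_le_of_le' tendsto_const_nhds
    (h := fun T : ℝ => (K : ℝ) * T⁻¹) ?_ ?_ hup
  · simpa using (tendsto_inv_atTop_zero (𝕜 := ℝ)).const_mul (K : ℝ)
  · filter_upwards [eventually_ge_atTop (3 : ℝ)] with T hT3
    refine div_nonneg ?_ (by linarith)
    unfold EE QQ
    refine Finset.sum_nonneg (fun s _ => mul_nonneg (by positivity) ?_)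
    refine Finset.sum_nonneg (fun d _ => mul_nonneg (by positivity) ?_)
    refine Finset.sum_nonneg (fun q _ => mul_nonneg (by positivity) ?_)
    exact Pool.Agent.Lib.MP_6bc78b_nt.LS.primSum_nonneg q _ (fun _ => norm_nonneg _)

theorem edg (h2 : WttStatement) : EdgStatement := by
  intro th xi hth0 hth j a ha hsup
  refine est_of_tiny th hth0 hth j a ha (fun N => ?_)
  rcases hsup with ⟨hxi, hs⟩ | ⟨hxi, hs⟩
  · have hev : ∀ᶠ T : ℝ in atTop, T ^ xi ≤ T / 16 := by
      have h1 : ∀ᶠ T : ℝ in atTop, (16 : ℝ) ≤ T ^ (1 - xi) :=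
        (tendsto_rpow_atTop (by linarith)).eventually_ge_atTop 16
      filter_upwards [h1, eventually_gt_atTop (0 : ℝ)] with T hT hT0
      rw [le_div_iff₀ (by norm_num)]
      calc T ^ xi * 16 ≤ T ^ xi * T ^ (1 - xi) :=
            mul_le_mul_of_nonneg_left hT (by positivity)
        _ = T := by rw [← Real.rpow_add hT0]; simp
    filter_upwards [h2 j N, hev, eventually_ge_atTop (3 : ℝ)] with T hw hT hT3
    intro n m hn hm hmT h0
    have hT0 : 0 < T := by linarith
    have hn1 : (1 : ℝ) ≤ n := by exact_mod_cast hn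
    have hm1 : (1 : ℝ) ≤ m := by exact_mod_cast hm
    have hmT' : (m : ℝ) ≤ T := by
      refine hmT.trans ?_
      calc T ^ th ≤ T ^ (1 : ℝ) := Real.rpow_le_rpow_of_exponent_le (by linarith) (by linarith)
        _ = T := Real.rpow_one T
    refine hw.1 _ ?_ ?_
    · rw [div_le_div_iff₀ hT0 (by linarith)]
      nlinarith
    · refine le_trans ?_ ((hs T hT3 n h0).trans hT)
      exact div_le_self (by linarith) hm1
  · filter_upwards [h2 j N, eventually_ge_atTop (3 : ℝ)] with T hw hT3
    intro n m hn hm hmT h0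
    have hT0 : 0 < T := by linarith
    have hm1 : (1 : ℝ) ≤ m := by exact_mod_cast hm
    have hnT := hs T hT3 n h0
    have hr : T ≤ (n : ℝ) / m := by
      rw [le_div_iff₀ (by linarith)]
      have h3 : T * T ^ th ≤ T ^ xi := by
        calc T * T ^ th = T ^ (1 : ℝ) * T ^ th := by rw [Real.rpow_one]
          _ = T ^ (1 + th) := by rw [← Real.rpow_add hT0]
          _ ≤ T ^ xi := Real.rpow_le_rpow_of_exponent_le (by linarith) hxi.le
      have h4 : T * m ≤ T * T ^ th := mul_le_mul_of_nonneg_left hmT hT0.le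
      linarith
    refine (hw.2 _ (by linarith)).trans ?_
    exact one_div_le_one_div_of_le (by positivity) (pow_le_pow_left₀ hT0.le hr N)

end Pool.Agent.Lib.MP_6bc78b_nt.MS.P2.H75
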